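import Pool.Agent.H945R3.KNJ.B

/-!
# The Goldbach-Knjzek problem in residue classes, for almost all members of every family of nearly
minimal additive energy

Definitions: `Pool.Agent.H945R3.KNJ.Defs` (`parts q c n`: the primes `p` with `√(2 n) < p ≤ n` such that
`2 n - p` is prime and `p ≡ c` or `2 n - p ≡ c` modulo `q`; `GoodK`, `badK`),
`Pool.Agent.H945R3.GAP.Defs` (`adm q n`: the number of the admissible classes modulo `q`) and
`Pool.Agent.H560R3.GB.Defs` (`HL`: the prediction of Hardy and Littlewood; `energy`).
-/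

set_option autoImplicit false

namespace Pool.Agent.Results.MP_73b532_nt.ThinFamilies

open Finset Pool.Agent.H560R3.GB Pool.Agent.H945R3.GAP Pool.Agent.H945R3.KNJ

/-- Let `q` be squarefree, let `h ≥ 1`, `C`, `U` and `ε > 0` be fixed, and let `N` be large. Let
`s 1, ..., s x` be any family of integers in `[1, N]` whose additive energy of order `h` is at most
`log^C N` times `x ^ (2 h) / N`. Then for all but at most `x / log^U N` of the members `n` of the
family the following holds for every `c` such that `c` and `2 n - c` are prime to `q`: there are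
primes `p` with `√(2 n) < p ≤ n` such that `2 n - p` is prime and one of `p`, `2 n - p` is congruent
to `c` modulo `q`, and the number of these `p` is at least `(1 - ε) / 2 * HL(2 n) / adm(q, n)`. -/
theorem result (q : ℕ) (hq : Squarefree q) (h C U : ℕ) (hh : 1 ≤ h) (ε : ℝ) (hε : 0 < ε) :
    ∃ N₀ : ℕ, ∀ N : ℕ, N₀ ≤ N → ∀ (x : ℕ) (s : ℕ → ℕ),
      (∀ m ∈ Icc 1 x, 1 ≤ s m ∧ s m ≤ N) →
      (energy h x s : ℝ) * N ≤ Real.log N ^ C * (x : ℝ) ^ (2 * h) →
      (badK ε q x s : ℝ) ≤ x / Real.log N ^ U :=
  first q hq h C U hh ε hε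

end Pool.Agent.Results.MP_73b532_nt.ThinFamilies
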